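import Mathlib

/-!
# A monotone reversible chain whose extremal starting pair does not maximise total variation

We exhibit a four-state chain on the totally ordered set `Fin 4`, reversible, irreducible,
aperiodic and monotone, for which at time `t = 1` the total variation distance between the
laws started from the states `2` and `3` is `3/5`, whereas the distance between the laws
started from the maximal and the minimal state is only `2/5`.
-/

namespace Pool.Agent.Results.MP_199736_pr.ExtremalTV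

open Finset

/-- Total variation distance `max_A |μ(A) - ν(A)|` of two mass functions on a finite set. -/
noncomputable def tvDist {Ω : Type} [Fintype Ω] (μ ν : Ω → ℝ) : ℝ :=
  ⨆ A : Finset Ω, |∑ z ∈ A, μ z - ∑ z ∈ A, ν z|

/-- `P` is a stochastic matrix on `Ω`. -/
def IsStochastic {Ω : Type} [Fintype Ω] (P : Matrix Ω Ω ℝ) : Prop :=
  (∀ x y, 0 ≤ P x y) ∧ ∀ x, ∑ y, P x y = 1

/-- Reversibility of the discrete-time chain with one-step matrix `P` with respect to the
probability mass function `π`: detailed balance for every power `P ^ t`. -/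
def IsReversible {Ω : Type} [Fintype Ω] [DecidableEq Ω] (P : Matrix Ω Ω ℝ) (π : Ω → ℝ) : Prop :=
  (∀ x, 0 ≤ π x) ∧ ∑ x, π x = 1 ∧ ∀ (t : ℕ) (x y : Ω), π x * (P ^ t) x y = π y * (P ^ t) y x

/-- Monotonicity of the discrete-time chain with one-step matrix `P`: for every time `t`,
`x ≤ y` implies `P^t(x, A) ≤ P^t(y, A)` for every increasing set `A`. -/
def IsMonotoneChain {Ω : Type} [Fintype Ω] [DecidableEq Ω] [PartialOrder Ω]
    (P : Matrix Ω Ω ℝ) : Prop :=
  ∀ (t : ℕ) (x y : Ω), x ≤ y → ∀ A : Finset Ω, IsUpperSet (A : Set Ω) →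
    ∑ z ∈ A, (P ^ t) x z ≤ ∑ z ∈ A, (P ^ t) y z

/-- The numerators of the one-step matrix. -/
def N4 : Fin 4 → Fin 4 → ℕ :=
  ![![2, 2, 1, 0], ![2, 2, 0, 1], ![2, 0, 2, 1], ![0, 2, 1, 2]]

/-- The one-step matrix. -/
noncomputable def P4 : Matrix (Fin 4) (Fin 4) ℝ := fun x y => (N4 x y : ℝ) / 5

/-- Numerators of the stationary distribution. -/
def W4 : Fin 4 → ℕ := ![2, 2, 1, 1]

/-- The stationary distribution. -/
noncomputable def pi4 : Fin 4 → ℝ := fun x => (W4 x : ℝ) / 6

lemma P4_stoch : IsStochastic P4 := by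
  constructor
  · intro x y
    unfold P4
    positivity
  · intro x
    have h : ∑ y, N4 x y = 5 := by revert x; decide
    have h' : ∑ y, (N4 x y : ℝ) = 5 := by exact_mod_cast h
    unfold P4
    rw [← Finset.sum_div, h']
    norm_num

lemma P4_balance (x y : Fin 4) : pi4 x * P4 x y = pi4 y * P4 y x := by
  have h : W4 x * N4 x y = W4 y * N4 y x := by revert x y; decide
  have h' : (W4 x : ℝ) * N4 x y = (W4 y : ℝ) * N4 y x := by exact_mod_cast h
  unfold pi4 P4
  rw [div_mul_div_comm, div_mul_div_comm, h']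

lemma balance_pow {Ω : Type} [Fintype Ω] [DecidableEq Ω] (P : Matrix Ω Ω ℝ) (π : Ω → ℝ)
    (h : ∀ x y, π x * P x y = π y * P y x) (t : ℕ) (x y : Ω) :
    π x * (P ^ t) x y = π y * (P ^ t) y x := by
  induction t generalizing x y with
  | zero =>
      by_cases hxy : x = y
      · subst hxy; rfl
      · simp [Matrix.one_apply, hxy, Ne.symm hxy]
  | succ t ih =>
      rw [pow_succ, Matrix.mul_apply, Finset.mul_sum]
      rw [← pow_succ, pow_succ', Matrix.mul_apply, Finset.mul_sum]
      refine Finset.sum_congr rfl fun z _ => ?_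
      calc π x * ((P ^ t) x z * P z y) = (π x * (P ^ t) x z) * P z y := by ring
        _ = (π z * (P ^ t) z x) * P z y := by rw [ih x z]
        _ = (π z * P z y) * (P ^ t) z x := by ring
        _ = (π y * P y z) * (P ^ t) z x := by rw [h z y]
        _ = π y * (P y z * (P ^ t) z x) := by ring

/-- An integral of an increasing function against rows of a monotone kernel is increasing;
we use it in the form: if `P` maps increasing functions to increasing functions, so does `P^t`. -/
lemma mono_pow {Ω : Type} [Fintype Ω] [DecidableEq Ω] [PartialOrder Ω] (P : Matrix Ω Ω ℝ)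
    (h : ∀ f : Ω → ℝ, Monotone f → Monotone (fun x => ∑ z, P x z * f z)) (t : ℕ)
    (f : Ω → ℝ) (hf : Monotone f) : Monotone (fun x => ∑ z, (P ^ t) x z * f z) := by
  induction t with
  | zero =>
      intro x y hxy
      simpa [Matrix.one_apply] using hf hxy
  | succ t ih =>
      have h2 := h _ ih
      have : (fun x => ∑ z, (P ^ (t + 1)) x z * f z)
          = fun x => ∑ z, P x z * (fun x => ∑ z, (P ^ t) x z * f z) z := by
        funext x
        simp only [pow_succ', Matrix.mul_apply, Finset.sum_mul, Finset.mul_sum]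
        rw [Finset.sum_comm]
        refine Finset.sum_congr rfl fun z _ => Finset.sum_congr rfl fun w _ => ?_
        ring
      rw [this]
      exact h2

lemma P4_mono_fun (f : Fin 4 → ℝ) (hf : Monotone f) :
    Monotone (fun x => ∑ z, P4 x z * f z) := by
  have h01 : f 0 ≤ f 1 := hf (by decide)
  have h12 : f 1 ≤ f 2 := hf (by decide)
  have h23 : f 2 ≤ f 3 := hf (by decide)
  have e0 : (∑ z, P4 0 z * f z) = (2 * f 0 + 2 * f 1 + f 2) / 5 := by
    have h0 : N4 0 0 = 2 := rfl
    have h1 : N4 0 1 = 2 := rfl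
    have h2 : N4 0 2 = 1 := rfl
    have h3 : N4 0 3 = 0 := rfl
    simp only [Fin.sum_univ_four, P4, h0, h1, h2, h3]; push_cast; ring
  have e1 : (∑ z, P4 1 z * f z) = (2 * f 0 + 2 * f 1 + f 3) / 5 := by
    have h0 : N4 1 0 = 2 := rfl
    have h1 : N4 1 1 = 2 := rfl
    have h2 : N4 1 2 = 0 := rfl
    have h3 : N4 1 3 = 1 := rfl
    simp only [Fin.sum_univ_four, P4, h0, h1, h2, h3]; push_cast; ring
  have e2 : (∑ z, P4 2 z * f z) = (2 * f 0 + 2 * f 2 + f 3) / 5 := by
    have h0 : N4 2 0 = 2 := rfl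
    have h1 : N4 2 1 = 0 := rfl
    have h2 : N4 2 2 = 2 := rfl
    have h3 : N4 2 3 = 1 := rfl
    simp only [Fin.sum_univ_four, P4, h0, h1, h2, h3]; push_cast; ring
  have e3 : (∑ z, P4 3 z * f z) = (2 * f 1 + f 2 + 2 * f 3) / 5 := by
    have h0 : N4 3 0 = 0 := rfl
    have h1 : N4 3 1 = 2 := rfl
    have h2 : N4 3 2 = 1 := rfl
    have h3 : N4 3 3 = 2 := rfl
    simp only [Fin.sum_univ_four, P4, h0, h1, h2, h3]; push_cast; ring
  refine Fin.monotone_iff_le_succ.2 ?_
  intro i
  fin_cases i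
  · show (∑ z, P4 0 z * f z) ≤ ∑ z, P4 1 z * f z
    rw [e0, e1]; linarith
  · show (∑ z, P4 1 z * f z) ≤ ∑ z, P4 2 z * f z
    rw [e1, e2]; linarith
  · show (∑ z, P4 2 z * f z) ≤ ∑ z, P4 3 z * f z
    rw [e2, e3]; linarith

lemma P4_monotone : IsMonotoneChain P4 := by
  intro t x y hxy A hA
  classical
  have hf : Monotone (fun z : Fin 4 => if z ∈ A then (1 : ℝ) else 0) := by
    intro a b hab
    by_cases ha : a ∈ A
    · have hb : b ∈ A := hA hab ha
      simp [ha, hb]
    · by_cases hb : b ∈ A <;> simp [ha, hb]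
  have := mono_pow P4 P4_mono_fun t _ hf hxy
  simpa [Finset.sum_ite_mem, mul_ite] using this

lemma le_tv {Ω : Type} [Fintype Ω] (μ ν : Ω → ℝ) (A : Finset Ω) :
    |∑ z ∈ A, μ z - ∑ z ∈ A, ν z| ≤ tvDist μ ν := by
  unfold tvDist
  exact le_ciSup (f := fun A : Finset Ω => |∑ z ∈ A, μ z - ∑ z ∈ A, ν z|)
    (Set.finite_range _).bddAbove A

lemma tv_le {Ω : Type} [Fintype Ω] (μ ν : Ω → ℝ) (c : ℝ)
    (h : ∀ A : Finset Ω, |∑ z ∈ A, μ z - ∑ z ∈ A, ν z| ≤ c) : tvDist μ ν ≤ c :=
  ciSup_le h

/-- **Negative answer to Q2.** There are a finite partially ordered set `Ω` with a maximal element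
`⊤` and a minimal element `⊥`, and a discrete-time Markov chain on it which is monotone and
reversible (even irreducible and aperiodic, all entries of `P ^ 2` being positive), a time `t`
and two states `x, y` such that the total variation distance at time `t` between the laws of the
chain started from `x` and from `y` is strictly larger than the one between the laws of the
chain started from `⊤` and from `⊥`. -/
theorem result :
    ∃ (Ω : Type) (_ : Fintype Ω) (_ : DecidableEq Ω) (_ : PartialOrder Ω) (_ : BoundedOrder Ω)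
      (P : Matrix Ω Ω ℝ) (π : Ω → ℝ),
      IsStochastic P ∧ IsReversible P π ∧ IsMonotoneChain P ∧ (∀ x y, 0 < (P ^ 2) x y) ∧
      ∃ (t : ℕ) (x y : Ω),
        tvDist ((P ^ t) ⊤) ((P ^ t) ⊥) < tvDist ((P ^ t) x) ((P ^ t) y) := by
  refine ⟨Fin 4, inferInstance, inferInstance, inferInstance, inferInstance, P4, pi4,
    P4_stoch, ⟨?_, ?_, ?_⟩, P4_monotone, ?_, 1, 2, 3, ?_⟩
  · intro x; unfold pi4; positivity
  · have h : ∑ x, W4 x = 6 := by decide
    have h' : ∑ x, (W4 x : ℝ) = 6 := by exact_mod_cast h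
    unfold pi4
    rw [← Finset.sum_div, h']
    norm_num
  · exact fun t x y => balance_pow P4 pi4 P4_balance t x y
  · intro x y
    have h : 0 < ∑ z, N4 x z * N4 z y := by revert x y; decide
    have h' : (0 : ℝ) < ∑ z, (N4 x z : ℝ) * N4 z y := by exact_mod_cast h
    rw [pow_two, Matrix.mul_apply]
    have e : ∑ j, P4 x j * P4 j y = (∑ z, (N4 x z : ℝ) * N4 z y) / 25 := by
      rw [Finset.sum_div]
      refine Finset.sum_congr rfl fun z _ => ?_
      unfold P4; ring
    rw [e]
    positivity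
  · have htop : (⊤ : Fin 4) = 3 := rfl
    have hbot : (⊥ : Fin 4) = 0 := rfl
    rw [htop, hbot, pow_one]
    have hsum : ∀ (x y : Fin 4) (A : Finset (Fin 4)), ∑ z ∈ A, P4 x z - ∑ z ∈ A, P4 y z
        = (((∑ z ∈ A, (N4 x z : ℤ)) - ∑ z ∈ A, (N4 y z : ℤ) : ℤ) : ℝ) / 5 := by
      intro x y A
      unfold P4
      rw [← Finset.sum_div, ← Finset.sum_div]
      push_cast
      ring
    have h1 : tvDist (P4 3) (P4 0) ≤ 2 / 5 := by
      refine tv_le _ _ _ fun A => ?_
      have hA : |(∑ z ∈ A, (N4 3 z : ℤ)) - ∑ z ∈ A, (N4 0 z : ℤ)| ≤ 2 := by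
        revert A; decide
      rw [hsum, abs_div, ← Int.cast_abs]
      have hA' : ((|(∑ z ∈ A, (N4 3 z : ℤ)) - ∑ z ∈ A, (N4 0 z : ℤ)| : ℤ) : ℝ) ≤ 2 := by
        exact_mod_cast hA
      rw [abs_of_pos (by norm_num : (0 : ℝ) < 5)]
      linarith
    have h2 : (3 / 5 : ℝ) ≤ tvDist (P4 2) (P4 3) := by
      refine le_trans ?_ (le_tv (P4 2) (P4 3) {0, 2})
      have hA : |(∑ z ∈ ({0, 2} : Finset (Fin 4)), (N4 2 z : ℤ))
          - ∑ z ∈ ({0, 2} : Finset (Fin 4)), (N4 3 z : ℤ)| = 3 := by decide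
      rw [hsum, abs_div, ← Int.cast_abs, hA, abs_of_pos (by norm_num : (0 : ℝ) < 5)]
      norm_num
    linarith

end Pool.Agent.Results.MP_199736_pr.ExtremalTV
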